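import Mathlib

namespace Pool.Agent.H90

open Finset

/-- Beck-Fiala rounding: a fractional point of the cube can be rounded to a vertex of the cube
changing the sum over every edge by less than the maximum degree. -/
theorem beckFiala_aux {V : Type*} [Fintype V] [DecidableEq V] (E : Finset (Finset V)) (Δ : ℕ)
    (hΔ : 0 < Δ) (hdeg : ∀ v, (E.filter (fun e => v ∈ e)).card ≤ Δ) :
    ∀ (n : ℕ) (x : V → ℝ), (∀ v, 0 ≤ x v ∧ x v ≤ 1) →
      (univ.filter (fun v => x v ≠ 0 ∧ x v ≠ 1)).card = n →
      ∃ y : V → ℝ, (∀ v, y v = 0 ∨ y v = 1) ∧ (∀ v, (x v = 0 ∨ x v = 1) → y v = x v) ∧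
        ∀ e ∈ E, |∑ v ∈ e, y v - ∑ v ∈ e, x v| < Δ := by
  intro n
  induction n using Nat.strong_induction_on with
  | _ n ih =>
  intro x hx hn
  set F : Finset V := univ.filter (fun v => x v ≠ 0 ∧ x v ≠ 1) with hF
  have memF : ∀ v, v ∈ F ↔ (x v ≠ 0 ∧ x v ≠ 1) := by intro v; simp [hF]
  by_cases hF0 : F = ∅
  · refine ⟨x, ?_, fun v _ => rfl, ?_⟩
    · intro v
      by_contra hcon
      push Not at hcon
      have : v ∈ F := (memF v).2 hcon
      rw [hF0] at this
      exact absurd this (Finset.notMem_empty v)
    · intro e _
      simp only [sub_self, abs_zero]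
      exact_mod_cast hΔ
  · have hFne : F.Nonempty := Finset.nonempty_iff_ne_empty.2 hF0
    set A : Finset (Finset V) := E.filter (fun e => Δ < (e ∩ F).card) with hA
    -- counting
    have hcount : (Δ + 1) * A.card ≤ Δ * F.card := by
      calc (Δ + 1) * A.card = ∑ e ∈ A, (Δ + 1) := by rw [Finset.sum_const, smul_eq_mul, mul_comm]
        _ ≤ ∑ e ∈ A, (e ∩ F).card := by
            apply Finset.sum_le_sum
            intro e he
            have := (Finset.mem_filter.1 he).2
            omega
        _ = ∑ e ∈ A, ∑ v ∈ F, (if v ∈ e then 1 else 0) := by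
            apply Finset.sum_congr rfl
            intro e _
            rw [Finset.inter_comm, ← Finset.filter_mem_eq_inter, Finset.card_filter]
        _ = ∑ v ∈ F, ∑ e ∈ A, (if v ∈ e then 1 else 0) := Finset.sum_comm
        _ ≤ ∑ v ∈ F, Δ := by
            apply Finset.sum_le_sum
            intro v _
            rw [← Finset.card_filter]
            refine le_trans (Finset.card_le_card ?_) (hdeg v)
            intro e he
            rw [Finset.mem_filter] at he ⊢
            exact ⟨(Finset.mem_filter.1 he.1).1, he.2⟩
        _ = Δ * F.card := by rw [Finset.sum_const, smul_eq_mul, mul_comm]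
    have hFpos : 0 < F.card := Finset.card_pos.2 hFne
    have hAF : A.card < F.card := by
      by_contra hcon
      push Not at hcon
      nlinarith
    -- the linear map
    let L : (V → ℝ) →ₗ[ℝ] ((A → ℝ) × ((univ \ F : Finset V) → ℝ)) :=
      { toFun := fun d => (fun e => ∑ v ∈ e.1, d v, fun v => d v.1)
        map_add' := by
          intro a b
          ext i
          · simp [Finset.sum_add_distrib]
          · simp
        map_smul' := by
          intro c a
          ext i
          · simp [Finset.mul_sum]
          · simp }
    have hker : LinearMap.ker L ≠ ⊥ := by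
      apply LinearMap.ker_ne_bot_of_finrank_lt
      rw [Module.finrank_prod, Module.finrank_fintype_fun_eq_card,
        Module.finrank_fintype_fun_eq_card, Module.finrank_fintype_fun_eq_card]
      simp only [Fintype.card_coe]
      have h1 : (univ \ F : Finset V).card = Fintype.card V - F.card := by
        rw [Finset.card_sdiff_of_subset (Finset.subset_univ F), Finset.card_univ]
      have h2 : F.card ≤ Fintype.card V := Finset.card_le_univ F
      omega
    obtain ⟨d, hdker, hdne⟩ := (Submodule.ne_bot_iff _).1 hker
    rw [LinearMap.mem_ker] at hdker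
    have hd1 : ∀ e ∈ A, ∑ v ∈ e, d v = 0 := by
      intro e he
      have := congrFun (congrArg Prod.fst hdker) ⟨e, he⟩
      simpa [L] using this
    have hd2 : ∀ v, v ∉ F → d v = 0 := by
      intro v hv
      have := congrFun (congrArg Prod.snd hdker) ⟨v, by simp [hv]⟩
      simpa [L] using this
    set S : Finset V := F.filter (fun v => d v ≠ 0) with hS
    have hSne : S.Nonempty := by
      obtain ⟨v, hv⟩ := Function.ne_iff.1 hdne
      refine ⟨v, ?_⟩
      rw [hS, Finset.mem_filter]
      refine ⟨?_, hv⟩
      by_contra hcon
      exact hv (hd2 v hcon)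
    let t : V → ℝ := fun v => if 0 < d v then (1 - x v) / d v else x v / (- d v)
    obtain ⟨v0, hv0S, hv0min⟩ := Finset.exists_min_image S t hSne
    have hxF : ∀ v ∈ F, 0 < x v ∧ x v < 1 := by
      intro v hv
      obtain ⟨h1, h2⟩ := (memF v).1 hv
      exact ⟨lt_of_le_of_ne (hx v).1 (Ne.symm h1), lt_of_le_of_ne (hx v).2 h2⟩
    have htpos : ∀ v ∈ S, 0 < t v := by
      intro v hv
      obtain ⟨hvF, hvd⟩ := Finset.mem_filter.1 hv
      obtain ⟨h1, h2⟩ := hxF v hvF
      by_cases hd : 0 < d v
      · simp only [t, if_pos hd]
        exact div_pos (by linarith) hd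
      · simp only [t, if_neg hd]
        have : d v < 0 := lt_of_le_of_ne (not_lt.1 hd) hvd
        exact div_pos h1 (by linarith)
    have ht0 : 0 < t v0 := htpos v0 hv0S
    set x' : V → ℝ := fun v => x v + t v0 * d v with hx'
    have hx'bd : ∀ v, 0 ≤ x' v ∧ x' v ≤ 1 := by
      intro v
      by_cases hvS : v ∈ S
      · obtain ⟨hvF, hvd⟩ := Finset.mem_filter.1 hvS
        obtain ⟨h1, h2⟩ := hxF v hvF
        have hle := hv0min v hvS
        by_cases hd : 0 < d v
        · simp only [t, if_pos hd] at hle
          have h3 : t v0 * d v ≤ 1 - x v := by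
            have := (le_div_iff₀ hd).1 hle
            simpa [t] using this
          have h4 : 0 < t v0 * d v := mul_pos ht0 hd
          simp only [hx']
          constructor <;> linarith
        · have hdn : d v < 0 := lt_of_le_of_ne (not_lt.1 hd) hvd
          have hle' : t v0 ≤ x v / (- d v) := by
            have : t v = x v / (- d v) := by simp only [t, if_neg hd]
            rw [← this]; exact hle
          have h3 : t v0 * (- d v) ≤ x v := (le_div_iff₀ (by linarith)).1 hle'
          have h4 : 0 < t v0 * (- d v) := mul_pos ht0 (by linarith)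
          simp only [hx']
          constructor <;> nlinarith
      · have hdv : d v = 0 := by
          by_contra hcon
          apply hvS
          rw [hS, Finset.mem_filter]
          refine ⟨?_, hcon⟩
          by_contra hc2
          exact hcon (hd2 v hc2)
        simp only [hx', hdv, mul_zero, add_zero]
        exact hx v
    have hx'out : ∀ v, v ∉ F → x' v = x v := by
      intro v hv
      simp only [hx', hd2 v hv, mul_zero, add_zero]
    have hx'v0 : x' v0 = 0 ∨ x' v0 = 1 := by
      obtain ⟨hvF, hvd⟩ := Finset.mem_filter.1 hv0S
      by_cases hd : 0 < d v0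
      · right
        have : t v0 = (1 - x v0) / d v0 := by simp only [t, if_pos hd]
        simp only [hx', this]
        field_simp
        ring
      · left
        have hdn : d v0 < 0 := lt_of_le_of_ne (not_lt.1 hd) hvd
        have : t v0 = x v0 / (- d v0) := by simp only [t, if_neg hd]
        simp only [hx', this]
        field_simp
        ring
    set F' : Finset V := univ.filter (fun v => x' v ≠ 0 ∧ x' v ≠ 1) with hF'
    have hF'sub : F' ⊆ F.erase v0 := by
      intro v hv
      rw [hF', Finset.mem_filter] at hv
      rw [Finset.mem_erase]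
      constructor
      · rintro rfl
        rcases hx'v0 with h | h
        · exact hv.2.1 h
        · exact hv.2.2 h
      · by_contra hcon
        have h1 := hx'out v hcon
        rw [h1] at hv
        exact hcon ((memF v).2 hv.2)
    have hcardlt : F'.card < n := by
      have h1 := Finset.card_le_card hF'sub
      have hvF : v0 ∈ F := (Finset.mem_filter.1 hv0S).1
      rw [Finset.card_erase_of_mem hvF] at h1
      rw [← hn]
      omega
    obtain ⟨y, hy01, hyfix, hyE⟩ := ih F'.card hcardlt x' hx'bd rfl
    refine ⟨y, hy01, ?_, ?_⟩
    · intro v hv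
      have hvF : v ∉ F := by
        intro hc
        obtain ⟨h1, h2⟩ := (memF v).1 hc
        rcases hv with h | h
        · exact h1 h
        · exact h2 h
      have h1 := hx'out v hvF
      rw [← h1]
      apply hyfix
      rw [h1]
      exact hv
    · intro e he
      by_cases heA : e ∈ A
      · have h1 := hyE e he
        have h2 : ∑ v ∈ e, x' v = ∑ v ∈ e, x v := by
          simp only [hx', Finset.sum_add_distrib, ← Finset.mul_sum, hd1 e heA, mul_zero, add_zero]
        rwa [h2] at h1
      · have hcard : (e ∩ F).card ≤ Δ := by
          by_contra hcon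
          push Not at hcon
          exact heA (Finset.mem_filter.2 ⟨he, hcon⟩)
        have hyout : ∀ v, v ∉ F → y v = x v := by
          intro v hv
          have h1 := hx'out v hv
          rw [← h1]
          apply hyfix
          rw [h1]
          by_contra hcon
          push Not at hcon
          exact hv ((memF v).2 hcon)
        have hsum : ∑ v ∈ e, y v - ∑ v ∈ e, x v = ∑ v ∈ e ∩ F, (y v - x v) := by
          rw [← Finset.sum_sub_distrib]
          symm
          apply Finset.sum_subset Finset.inter_subset_left
          intro v hve hvn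
          have : v ∉ F := fun hc => hvn (Finset.mem_inter.2 ⟨hve, hc⟩)
          rw [hyout v this, sub_self]
        rw [hsum]
        by_cases hne : (e ∩ F).Nonempty
        · calc |∑ v ∈ e ∩ F, (y v - x v)| ≤ ∑ v ∈ e ∩ F, |y v - x v| :=
                Finset.abs_sum_le_sum_abs _ _
            _ < ∑ v ∈ e ∩ F, (1 : ℝ) := by
                apply Finset.sum_lt_sum_of_nonempty hne
                intro v hv
                obtain ⟨h1, h2⟩ := hxF v (Finset.mem_inter.1 hv).2
                rw [abs_lt]
                rcases hy01 v with h | h
                · rw [h]; constructor <;> linarith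
                · rw [h]; constructor <;> linarith
            _ = ((e ∩ F).card : ℝ) := by simp
            _ ≤ Δ := by exact_mod_cast hcard
        · rw [Finset.not_nonempty_iff_eq_empty] at hne
          rw [hne]
          simp only [Finset.sum_empty, abs_zero]
          exact_mod_cast hΔ

/-- Integral form: if all edges have exactly `r` vertices and `c ≤ r`, there is a set of vertices
meeting every edge in strictly more than `c - Δ` and strictly less than `c + Δ` vertices. -/
theorem exists_balanced_set {V : Type*} [Fintype V] [DecidableEq V] (E : Finset (Finset V))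
    (Δ r c : ℕ) (hΔ : 0 < Δ) (hdeg : ∀ v, (E.filter (fun e => v ∈ e)).card ≤ Δ)
    (hunif : ∀ e ∈ E, e.card = r) (hc : c ≤ r) (hr : 0 < r) :
    ∃ T : Finset V, ∀ e ∈ E, c < (e ∩ T).card + Δ ∧ (e ∩ T).card < c + Δ := by
  have hr' : (0 : ℝ) < r := by exact_mod_cast hr
  obtain ⟨y, hy01, -, hyE⟩ := beckFiala_aux E Δ hΔ hdeg _ (fun _ : V => (c : ℝ) / r)
    (by
      intro v
      constructor
      · positivity
      · rw [div_le_one hr']; exact_mod_cast hc) rfl
  refine ⟨univ.filter (fun v => y v = 1), ?_⟩
  intro e he
  have h1 := hyE e he
  have h2 : ∑ v ∈ e, y v = ((e ∩ univ.filter (fun v => y v = 1)).card : ℝ) := by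
    have : e ∩ univ.filter (fun v => y v = 1) = e.filter (fun v => y v = 1) := by
      ext v; simp
    rw [this, Finset.card_filter]
    push_cast
    apply Finset.sum_congr rfl
    intro v _
    rcases hy01 v with h | h
    · rw [h]; simp
    · rw [h]; simp
  have h3 : ∑ v ∈ e, (c : ℝ) / r = c := by
    rw [Finset.sum_const, hunif e he, nsmul_eq_mul]
    field_simp
  rw [h2, h3, abs_lt] at h1
  constructor
  · have : (c : ℝ) < (e ∩ univ.filter (fun v => y v = 1)).card + Δ := by linarith [h1.1]
    exact_mod_cast this
  · have : ((e ∩ univ.filter (fun v => y v = 1)).card : ℝ) < c + Δ := by linarith [h1.2]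
    exact_mod_cast this

end Pool.Agent.H90
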