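import Mathlib

namespace Pool.Agent.H90

open Finset

/-- The number of words of length `s` over `k` special and `w` ordinary letters in which no special
letter occurs exactly once. -/
def noSing : ℕ → ℕ → ℕ → ℕ
  | 0, w, s => w ^ s
  | k + 1, w, s => ∑ j ∈ Finset.range (s + 1), if j = 1 then 0 else s.choose j * noSing k w (s - j)

/-- `NoUnique S A c`: no colour of `S` occurs exactly once on `A`. -/
def NoUnique {V : Type*} [DecidableEq V] (S : Finset ℕ) (A : Finset V) (c : V → ℕ) : Prop :=
  ∀ i ∈ S, (A.filter (fun v => c v = i)).card ≠ 1

instance {V : Type*} [DecidableEq V] (S : Finset ℕ) (A : Finset V) (c : V → ℕ) :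
    Decidable (NoUnique S A c) := by unfold NoUnique; infer_instance

/-- All colourings of `A` from the palette `P` (and `0` outside `A`). -/
def cols {V : Type*} [Fintype V] [DecidableEq V] (P : Finset ℕ) (A : Finset V) : Finset (V → ℕ) :=
  Fintype.piFinset (fun v => if v ∈ A then P else {0})

theorem mem_cols {V : Type*} [Fintype V] [DecidableEq V] (P : Finset ℕ) (A : Finset V) (c : V → ℕ) :
    c ∈ cols P A ↔ (∀ v ∈ A, c v ∈ P) ∧ (∀ v, v ∉ A → c v = 0) := by
  unfold cols
  rw [Fintype.mem_piFinset]
  constructor
  · intro h
    refine ⟨fun v hv => ?_, fun v hv => ?_⟩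
    · have := h v; rwa [if_pos hv] at this
    · have := h v; rw [if_neg hv] at this; simpa using this
  · rintro ⟨h1, h2⟩ v
    by_cases hv : v ∈ A
    · rw [if_pos hv]; exact h1 v hv
    · rw [if_neg hv]; simpa using h2 v hv

theorem card_cols {V : Type*} [Fintype V] [DecidableEq V] (P : Finset ℕ) (A : Finset V) :
    (cols P A).card = P.card ^ A.card := by
  unfold cols
  rw [Fintype.card_piFinset]
  have : ∀ v, (if v ∈ A then P else ({0} : Finset ℕ)).card = if v ∈ A then P.card else 1 := by
    intro v; split_ifs <;> simp
  simp only [this]
  rw [Finset.prod_ite_mem]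
  simp

/-- Bound on the number of colourings of `A` without unique special colour. -/
theorem card_noUnique_le {V : Type*} [Fintype V] [DecidableEq V] (W : Finset ℕ) (S : Finset ℕ) :
    ∀ A : Finset V, ((cols (S ∪ W) A).filter (fun c => NoUnique S A c)).card
      ≤ noSing S.card W.card A.card := by
  induction S using Finset.induction_on with
  | empty =>
    intro A
    simp only [Finset.card_empty, noSing, Finset.empty_union]
    refine le_trans (Finset.card_filter_le _ _) ?_
    rw [card_cols]
  | insert i S hi ih =>
    intro A
    rw [Finset.card_insert_of_notMem hi]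
    simp only [noSing]
    have hmaps : ∀ c ∈ (cols (insert i S ∪ W) A).filter (fun c => NoUnique (insert i S) A c),
        A.filter (fun v => c v = i) ∈ A.powerset.filter (fun B => B.card ≠ 1) := by
      intro c hc
      rw [Finset.mem_filter] at hc
      rw [Finset.mem_filter, Finset.mem_powerset]
      exact ⟨Finset.filter_subset _ _, hc.2 i (Finset.mem_insert_self _ _)⟩
    rw [Finset.card_eq_sum_card_fiberwise hmaps]
    have hfib : ∀ B ∈ A.powerset.filter (fun B => B.card ≠ 1),
        (((cols (insert i S ∪ W) A).filter (fun c => NoUnique (insert i S) A c)).filter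
          (fun c => A.filter (fun v => c v = i) = B)).card ≤ noSing S.card W.card (A.card - B.card) := by
      intro B hB
      have hBA : B ⊆ A := Finset.mem_powerset.1 (Finset.mem_filter.1 hB).1
      rw [← Finset.card_sdiff_of_subset hBA]
      refine le_trans ?_ (ih (A \ B))
      apply Finset.card_le_card_of_injOn (fun c v => if v ∈ B then 0 else c v)
      · intro c hc
        simp only [Finset.coe_filter, Set.mem_ofPred_eq, Finset.mem_filter] at hc ⊢
        obtain ⟨⟨hc1, hc2⟩, hc3⟩ := hc
        rw [mem_cols] at hc1
        rw [mem_cols]
        have hBi : ∀ v, v ∈ B ↔ (v ∈ A ∧ c v = i) := by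
          intro v; rw [← hc3, Finset.mem_filter]
        refine ⟨⟨?_, ?_⟩, ?_⟩
        · intro v hv
          rw [Finset.mem_sdiff] at hv
          rw [if_neg hv.2]
          have h1 := hc1.1 v hv.1
          have h2 : c v ≠ i := fun h => hv.2 ((hBi v).2 ⟨hv.1, h⟩)
          rw [Finset.mem_union, Finset.mem_insert] at h1
          rw [Finset.mem_union]
          tauto
        · intro v hv
          by_cases hvB : v ∈ B
          · rw [if_pos hvB]
          · rw [if_neg hvB]
            apply hc1.2
            intro hvA
            exact hv (Finset.mem_sdiff.2 ⟨hvA, hvB⟩)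
        · intro j hj
          have hji : j ≠ i := fun h => hi (h ▸ hj)
          have : (A \ B).filter (fun v => (if v ∈ B then 0 else c v) = j)
              = A.filter (fun v => c v = j) := by
            ext v
            simp only [Finset.mem_filter, Finset.mem_sdiff]
            constructor
            · rintro ⟨⟨h1, h2⟩, h3⟩
              rw [if_neg h2] at h3
              exact ⟨h1, h3⟩
            · rintro ⟨h1, h2⟩
              have h3 : v ∉ B := by
                intro hvB
                have := ((hBi v).1 hvB).2
                exact hji (h2.symm.trans this)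
              exact ⟨⟨h1, h3⟩, by rw [if_neg h3]; exact h2⟩
          rw [this]
          exact hc2 j (Finset.mem_insert_of_mem hj)
      · intro c hc c' hc' hcc
        simp only [Finset.coe_filter, Set.mem_ofPred_eq, Finset.mem_filter] at hc hc'
        have hBi : ∀ v, v ∈ B ↔ (v ∈ A ∧ c v = i) := by
          intro v; rw [← hc.2, Finset.mem_filter]
        have hBi' : ∀ v, v ∈ B ↔ (v ∈ A ∧ c' v = i) := by
          intro v; rw [← hc'.2, Finset.mem_filter]
        funext v
        by_cases hvB : v ∈ B
        · rw [((hBi v).1 hvB).2, ((hBi' v).1 hvB).2]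
        · have := congrFun hcc v
          simpa [hvB] using this
    refine le_trans (Finset.sum_le_sum hfib) ?_
    rw [Finset.sum_filter]
    have hsum := Finset.sum_powerset_apply_card
      (fun j => if j = 1 then 0 else noSing S.card W.card (A.card - j)) (x := A)
    have hL : ∑ B ∈ A.powerset, (if B.card ≠ 1 then noSing S.card W.card (A.card - B.card) else 0)
        = ∑ B ∈ A.powerset, (if B.card = 1 then 0 else noSing S.card W.card (A.card - B.card)) := by
      apply Finset.sum_congr rfl
      intro B _
      by_cases h : B.card = 1
      · simp [h]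
      · simp [h]
    rw [hL, hsum]
    apply le_of_eq
    apply Finset.sum_congr rfl
    intro j _
    by_cases h : j = 1
    · simp [h]
    · simp [h, smul_eq_mul]

end Pool.Agent.H90
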