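import Mathlib
import Pool.Agent.Helper90_CF.Counting

namespace Pool.Agent.H90

open Finset

theorem choose_mul_descFactorial (s i j : ℕ) (h : i + j ≤ s) :
    s.choose j * (s - j).descFactorial i = s.descFactorial i * (s - i).choose j := by
  obtain ⟨t, rfl⟩ := Nat.exists_eq_add_of_le h
  have e1 : i + j + t - j = i + t := by omega
  have e2 : i + j + t - i = j + t := by omega
  rw [e1, e2]
  have h1 : (i + j + t).choose j * j.factorial * (i + t).factorial = (i + j + t).factorial := by
    have := Nat.choose_mul_factorial_mul_factorial (show j ≤ i + j + t by omega)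
    rwa [e1] at this
  have h2 : t.factorial * (i + t).descFactorial i = (i + t).factorial := by
    have := Nat.factorial_mul_descFactorial (show i ≤ i + t by omega)
    rwa [show i + t - i = t by omega] at this
  have h3 : (j + t).factorial * (i + j + t).descFactorial i = (i + j + t).factorial := by
    have := Nat.factorial_mul_descFactorial (show i ≤ i + j + t by omega)
    rwa [e2] at this
  have h4 : (j + t).choose j * j.factorial * t.factorial = (j + t).factorial := by
    have := Nat.choose_mul_factorial_mul_factorial (show j ≤ j + t by omega)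
    rwa [show j + t - j = t by omega] at this
  have hpos : 0 < j.factorial * t.factorial := Nat.mul_pos (Nat.factorial_pos _) (Nat.factorial_pos _)
  apply Nat.eq_of_mul_eq_mul_right hpos
  calc (i + j + t).choose j * (i + t).descFactorial i * (j.factorial * t.factorial)
      = (i + j + t).choose j * j.factorial * (t.factorial * (i + t).descFactorial i) := by ring
    _ = (i + j + t).factorial := by rw [h2, h1]
    _ = (j + t).factorial * (i + j + t).descFactorial i := h3.symm
    _ = ((j + t).choose j * j.factorial * t.factorial) * (i + j + t).descFactorial i := by rw [h4]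
    _ = _ := by ring

theorem sum_choose_desc (s i m : ℕ) :
    ∑ j ∈ range (s + 1), s.choose j * ((s - j).descFactorial i * m ^ (s - j - i))
      = s.descFactorial i * (m + 1) ^ (s - i) := by
  by_cases his : i ≤ s
  · have hsub : range (s - i + 1) ⊆ range (s + 1) := by
      apply Finset.range_subset_range.2; omega
    rw [← Finset.sum_subset hsub]
    · rw [add_comm m 1, add_pow, Finset.mul_sum]
      apply Finset.sum_congr rfl
      intro j hj
      rw [Finset.mem_range] at hj
      have h1 := choose_mul_descFactorial s i j (by omega)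
      rw [one_pow, one_mul, show s - j - i = s - i - j by omega, ← mul_assoc, h1]
      push_cast
      ring
    · intro j hj hj2
      rw [Finset.mem_range] at hj hj2
      have : (s - j).descFactorial i = 0 := by
        rw [Nat.descFactorial_eq_zero_iff_lt]; omega
      rw [this]; simp
  · push Not at his
    have h0 : s.descFactorial i = 0 := by rw [Nat.descFactorial_eq_zero_iff_lt]; omega
    rw [h0, zero_mul]
    apply Finset.sum_eq_zero
    intro j _
    have : (s - j).descFactorial i = 0 := by
      rw [Nat.descFactorial_eq_zero_iff_lt]; omega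
    rw [this]; simp

/-- Closed form of `noSing` by inclusion and exclusion. -/
theorem noSing_closed (k : ℕ) : ∀ w s : ℕ, (noSing k w s : ℤ)
    = ∑ i ∈ range (k + 1), (-1 : ℤ) ^ i * (k.choose i : ℤ) * (s.descFactorial i : ℤ)
        * ((w + k - i : ℕ) : ℤ) ^ (s - i) := by
  induction k with
  | zero => intro w s; simp [noSing]
  | succ k ih =>
    intro w s
    have h1 : (noSing (k + 1) w s : ℤ)
        = ∑ j ∈ range (s + 1), (s.choose j : ℤ) * noSing k w (s - j) - s * noSing k w (s - 1) := by
      simp only [noSing]
      push_cast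
      have : ∀ j ∈ range (s + 1), (if j = 1 then (0 : ℤ) else (s.choose j : ℤ) * noSing k w (s - j))
          = (s.choose j : ℤ) * noSing k w (s - j)
            - (if j = 1 then (s.choose j : ℤ) * noSing k w (s - j) else 0) := by
        intro j _
        split_ifs <;> ring
      rw [Finset.sum_congr rfl this, Finset.sum_sub_distrib, Finset.sum_ite_eq']
      congr 1
      by_cases hs : 1 ∈ range (s + 1)
      · rw [if_pos hs]; simp
      · rw [if_neg hs]
        rw [Finset.mem_range] at hs
        have : s = 0 := by omega
        rw [this]; simp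
    rw [h1]
    have h2 : ∑ j ∈ range (s + 1), (s.choose j : ℤ) * noSing k w (s - j)
        = ∑ i ∈ range (k + 1), (-1 : ℤ) ^ i * (k.choose i : ℤ) * (s.descFactorial i : ℤ)
          * ((w + k - i + 1 : ℕ) : ℤ) ^ (s - i) := by
      calc ∑ j ∈ range (s + 1), (s.choose j : ℤ) * noSing k w (s - j)
          = ∑ j ∈ range (s + 1), ∑ i ∈ range (k + 1), (-1 : ℤ) ^ i * (k.choose i : ℤ) *
              ((s.choose j * ((s - j).descFactorial i * (w + k - i) ^ (s - j - i)) : ℕ) : ℤ) := by
            apply Finset.sum_congr rfl
            intro j _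
            rw [ih, Finset.mul_sum]
            apply Finset.sum_congr rfl
            intro i _
            push_cast
            ring
        _ = ∑ i ∈ range (k + 1), ∑ j ∈ range (s + 1), (-1 : ℤ) ^ i * (k.choose i : ℤ) *
              ((s.choose j * ((s - j).descFactorial i * (w + k - i) ^ (s - j - i)) : ℕ) : ℤ) :=
            Finset.sum_comm
        _ = _ := by
            apply Finset.sum_congr rfl
            intro i _
            rw [← Finset.mul_sum, ← Nat.cast_sum, sum_choose_desc]
            push_cast
            ring
    rw [h2]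
    have h3 : (s : ℤ) * noSing k w (s - 1)
        = ∑ i ∈ range (k + 1), (-1 : ℤ) ^ i * (k.choose i : ℤ) * (s.descFactorial (i + 1) : ℤ)
          * ((w + k - i : ℕ) : ℤ) ^ (s - (i + 1)) := by
      rw [ih, Finset.mul_sum]
      apply Finset.sum_congr rfl
      intro i _
      cases s with
      | zero => simp
      | succ s =>
        rw [Nat.succ_descFactorial_succ, show s + 1 - 1 = s by omega,
          show s + 1 - (i + 1) = s - i by omega]
        push_cast
        ring
    rw [h3]
    rw [Finset.sum_range_succ' (fun i => (-1 : ℤ) ^ i * ((k + 1).choose i : ℤ) *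
      (s.descFactorial i : ℤ) * ((w + (k + 1) - i : ℕ) : ℤ) ^ (s - i))]
    rw [Finset.sum_range_succ' (fun i => (-1 : ℤ) ^ i * (k.choose i : ℤ) *
      (s.descFactorial i : ℤ) * ((w + k - i + 1 : ℕ) : ℤ) ^ (s - i))]
    have h4 : ∑ i ∈ range (k + 1), (-1 : ℤ) ^ (i + 1) * ((k + 1).choose (i + 1) : ℤ) *
        (s.descFactorial (i + 1) : ℤ) * ((w + (k + 1) - (i + 1) : ℕ) : ℤ) ^ (s - (i + 1))
        = ∑ i ∈ range (k + 1), ((-1 : ℤ) ^ (i + 1) * (k.choose (i + 1) : ℤ) *
          (s.descFactorial (i + 1) : ℤ) * ((w + k - i : ℕ) : ℤ) ^ (s - (i + 1))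
          - (-1 : ℤ) ^ i * (k.choose i : ℤ) * (s.descFactorial (i + 1) : ℤ)
          * ((w + k - i : ℕ) : ℤ) ^ (s - (i + 1))) := by
      apply Finset.sum_congr rfl
      intro i _
      rw [Nat.choose_succ_succ, show w + (k + 1) - (i + 1) = w + k - i by omega]
      push_cast
      ring
    rw [h4, Finset.sum_sub_distrib, Finset.sum_range_succ (fun i => (-1 : ℤ) ^ (i + 1) *
      (k.choose (i + 1) : ℤ) * (s.descFactorial (i + 1) : ℤ) *
      ((w + k - i : ℕ) : ℤ) ^ (s - (i + 1))) k]
    have h5 : ∑ i ∈ range k, (-1 : ℤ) ^ (i + 1) * (k.choose (i + 1) : ℤ) *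
        (s.descFactorial (i + 1) : ℤ) * ((w + k - (i + 1) + 1 : ℕ) : ℤ) ^ (s - (i + 1))
        = ∑ i ∈ range k, (-1 : ℤ) ^ (i + 1) * (k.choose (i + 1) : ℤ) *
        (s.descFactorial (i + 1) : ℤ) * ((w + k - i : ℕ) : ℤ) ^ (s - (i + 1)) := by
      apply Finset.sum_congr rfl
      intro i hi
      rw [Finset.mem_range] at hi
      rw [show w + k - (i + 1) + 1 = w + k - i by omega]
    rw [h5]
    simp
    ring

end Pool.Agent.H90
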