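import Mathlib
import Pool.Agent.Helper90_CF.Numeric

namespace Pool.Agent.H90

open Finset

/-- Explicit form of `noSing 19 w s`. -/
def ex19 (w s : ℕ) : ℤ :=
  ((1 * s.descFactorial 0 * (w + 19) ^ (s - 0) : ℕ) : ℤ)
    - ((19 * s.descFactorial 1 * (w + 18) ^ (s - 1) : ℕ) : ℤ)
    + ((171 * s.descFactorial 2 * (w + 17) ^ (s - 2) : ℕ) : ℤ)
    - ((969 * s.descFactorial 3 * (w + 16) ^ (s - 3) : ℕ) : ℤ)
    + ((3876 * s.descFactorial 4 * (w + 15) ^ (s - 4) : ℕ) : ℤ)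
    - ((11628 * s.descFactorial 5 * (w + 14) ^ (s - 5) : ℕ) : ℤ)
    + ((27132 * s.descFactorial 6 * (w + 13) ^ (s - 6) : ℕ) : ℤ)
    - ((50388 * s.descFactorial 7 * (w + 12) ^ (s - 7) : ℕ) : ℤ)
    + ((75582 * s.descFactorial 8 * (w + 11) ^ (s - 8) : ℕ) : ℤ)
    - ((92378 * s.descFactorial 9 * (w + 10) ^ (s - 9) : ℕ) : ℤ)
    + ((92378 * s.descFactorial 10 * (w + 9) ^ (s - 10) : ℕ) : ℤ)
    - ((75582 * s.descFactorial 11 * (w + 8) ^ (s - 11) : ℕ) : ℤ)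
    + ((50388 * s.descFactorial 12 * (w + 7) ^ (s - 12) : ℕ) : ℤ)
    - ((27132 * s.descFactorial 13 * (w + 6) ^ (s - 13) : ℕ) : ℤ)
    + ((11628 * s.descFactorial 14 * (w + 5) ^ (s - 14) : ℕ) : ℤ)
    - ((3876 * s.descFactorial 15 * (w + 4) ^ (s - 15) : ℕ) : ℤ)
    + ((969 * s.descFactorial 16 * (w + 3) ^ (s - 16) : ℕ) : ℤ)
    - ((171 * s.descFactorial 17 * (w + 2) ^ (s - 17) : ℕ) : ℤ)
    + ((19 * s.descFactorial 18 * (w + 1) ^ (s - 18) : ℕ) : ℤ)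
    - ((1 * s.descFactorial 19 * (w + 0) ^ (s - 19) : ℕ) : ℤ)

theorem noSing19 (w s : ℕ) : (noSing 19 w s : ℤ) = ex19 w s := by
  rw [noSing_closed]
  have hc : ∀ i, i ≤ 19 → w + 19 - i = w + (19 - i) := by intro i hi; omega
  simp only [Finset.sum_range_succ, Finset.sum_range_zero, ex19]
  norm_num [Nat.choose, hc]
  ring

theorem num_small_aux : ∀ s ∈ Finset.Icc 5 19, 20 * ex19 0 s * 50 ^ s ≤ 57 * 893 ^ (s - 1) := by
  decide +kernel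

theorem num_large_aux : ∀ s ∈ Finset.Icc 20 58, 20 * ex19 21 s * 10 ^ s ≤ 7 * 393 ^ (s - 1) := by
  decide +kernel

theorem num_small (s : ℕ) (h1 : 5 ≤ s) (h2 : s ≤ 19) :
    (20 : ℝ) * noSing 19 0 s ≤ (19 - 893 / 50) * (893 / 50 : ℝ) ^ (s - 1) := by
  have key := num_small_aux s (Finset.mem_Icc.2 ⟨h1, h2⟩)
  rw [← noSing19] at key
  have key' : (20 * noSing 19 0 s : ℝ) * 50 ^ s ≤ 57 * 893 ^ (s - 1) := by exact_mod_cast key
  obtain ⟨t, rfl⟩ : ∃ t, s = t + 1 := ⟨s - 1, by omega⟩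
  simp only [Nat.add_sub_cancel] at *
  rw [div_pow, show ((19 : ℝ) - 893 / 50) = 57 / 50 by norm_num, div_mul_div_comm,
    le_div_iff₀ (by positivity)]
  rw [← pow_succ']
  exact key'

theorem num_large (s : ℕ) (h1 : 20 ≤ s) (h2 : s ≤ 58) :
    (20 : ℝ) * noSing 19 21 s ≤ (40 - 393 / 10) * (393 / 10 : ℝ) ^ (s - 1) := by
  have key := num_large_aux s (Finset.mem_Icc.2 ⟨h1, h2⟩)
  rw [← noSing19] at key
  have key' : (20 * noSing 19 21 s : ℝ) * 10 ^ s ≤ 7 * 393 ^ (s - 1) := by exact_mod_cast key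
  obtain ⟨t, rfl⟩ : ∃ t, s = t + 1 := ⟨s - 1, by omega⟩
  simp only [Nat.add_sub_cancel] at *
  rw [div_pow, show ((40 : ℝ) - 393 / 10) = 7 / 10 by norm_num, div_mul_div_comm,
    le_div_iff₀ (by positivity)]
  rw [← pow_succ']
  exact key'

end Pool.Agent.H90
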