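import Mathlib
import Pool.Agent.Helper90_CF.Counting

namespace Pool.Agent.H90

open Finset

/-- Partial colourings of `X` such that every edge whose trace lies inside `X` has a unique
special colour on its trace. -/
def val {V : Type*} [Fintype V] [DecidableEq V] (E : Finset (Finset V)) (T : Finset V)
    (S W : Finset ℕ) (X : Finset V) : Finset (V → ℕ) :=
  (cols (S ∪ W) X).filter (fun c => ∀ e ∈ E, e ∩ T ⊆ X → ¬ NoUnique S (e ∩ T) c)

theorem mem_val {V : Type*} [Fintype V] [DecidableEq V] {E : Finset (Finset V)} {T : Finset V}
    {S W : Finset ℕ} {X : Finset V} {c : V → ℕ} :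
    c ∈ val E T S W X ↔ c ∈ cols (S ∪ W) X ∧ ∀ e ∈ E, e ∩ T ⊆ X → ¬ NoUnique S (e ∩ T) c := by
  unfold val; rw [Finset.mem_filter]

theorem noUnique_congr {V : Type*} [DecidableEq V] {S : Finset ℕ} {A : Finset V} {c c' : V → ℕ}
    (h : ∀ v ∈ A, c v = c' v) : NoUnique S A c ↔ NoUnique S A c' := by
  unfold NoUnique
  have : ∀ i, A.filter (fun v => c v = i) = A.filter (fun v => c' v = i) := by
    intro i
    apply Finset.filter_congr
    intro v hv
    rw [h v hv]
  simp only [this]

/-- One step of the counting argument. -/
theorem val_step {V : Type*} [Fintype V] [DecidableEq V] (E : Finset (Finset V)) (T : Finset V)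
    (S W : Finset ℕ) (hSW : Disjoint S W) (Δ : ℕ) (hΔ : 0 < Δ)
    (hdeg : ∀ v, (E.filter (fun e => v ∈ e)).card ≤ Δ)
    (β : ℝ) (hβ : 0 < β) (hβK : β ≤ ((S.card + W.card : ℕ) : ℝ))
    (hnum : ∀ e ∈ E, 1 ≤ (e ∩ T).card ∧ (Δ : ℝ) * noSing S.card W.card (e ∩ T).card
      ≤ ((S.card + W.card : ℕ) - β) * β ^ ((e ∩ T).card - 1)) :
    ∀ (n : ℕ) (X : Finset V), X ⊆ T → X.card = n → ∀ v ∈ T, v ∉ X →
      β * (val E T S W X).card ≤ (val E T S W (insert v X)).card := by
  intro n
  induction n using Nat.strong_induction_on with
  | _ n ih =>
  intro X hXT hXn v hvT hvX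
  -- chains
  have hchain : ∀ (k : ℕ) (Y : Finset V), Y ⊆ X → (X \ Y).card = k →
      β ^ k * (val E T S W Y).card ≤ (val E T S W X).card := by
    intro k
    induction k with
    | zero =>
      intro Y hYX hk
      have : X \ Y = ∅ := Finset.card_eq_zero.1 hk
      have hXY : X ⊆ Y := Finset.sdiff_eq_empty_iff_subset.1 this
      have : Y = X := Finset.Subset.antisymm hYX hXY
      rw [this]; simp
    | succ k ihk =>
      intro Y hYX hk
      have hne : (X \ Y).Nonempty := by
        rw [← Finset.card_pos]; omega
      obtain ⟨u, hu⟩ := hne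
      rw [Finset.mem_sdiff] at hu
      have hsub : insert u Y ⊆ X := Finset.insert_subset hu.1 hYX
      have hcard : (X \ insert u Y).card = k := by
        have h1 : X \ insert u Y = (X \ Y).erase u := by
          ext z; simp only [Finset.mem_sdiff, Finset.mem_insert, Finset.mem_erase]; tauto
        rw [h1, Finset.card_erase_of_mem (Finset.mem_sdiff.2 hu)]
        omega
      have h1 := ihk (insert u Y) hsub hcard
      have hYlt : Y.card < n := by
        rw [← hXn]
        apply Finset.card_lt_card
        refine ⟨hYX, fun h => hu.2 (h hu.1)⟩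
      have h2 := ih Y.card hYlt Y (hYX.trans hXT) rfl u (hXT hu.1) hu.2
      calc β ^ (k + 1) * (val E T S W Y).card = β ^ k * (β * (val E T S W Y).card) := by ring
        _ ≤ β ^ k * (val E T S W (insert u Y)).card :=
            mul_le_mul_of_nonneg_left h2 (by positivity)
        _ ≤ _ := h1
  -- the edges completed by `v`
  set Ev : Finset (Finset V) := E.filter (fun e => v ∈ e ∧ e ∩ T ⊆ insert v X) with hEv
  let Bad : Finset V → Finset (V → ℕ) := fun e =>
    (cols (S ∪ W) (insert v X)).filter
      (fun c => Function.update c v 0 ∈ val E T S W X ∧ NoUnique S (e ∩ T) c)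
  -- counting the extensions
  have hext : (S.card + W.card) * (val E T S W X).card
      ≤ (val E T S W (insert v X)).card + ∑ e ∈ Ev, (Bad e).card := by
    have h1 : ((val E T S W X) ×ˢ (S ∪ W)).card
        ≤ (val E T S W (insert v X) ∪ Ev.biUnion Bad).card := by
      apply Finset.card_le_card_of_injOn (fun p => Function.update p.1 v p.2)
      · rintro ⟨c, a⟩ hca
        simp only [Finset.coe_product, Set.mem_prod, Finset.mem_coe] at hca
        obtain ⟨hc, ha⟩ := hca
        rw [mem_val] at hc
        obtain ⟨hc1, hc2⟩ := hc
        rw [mem_cols] at hc1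
        have hcv : c v = 0 := hc1.2 v hvX
        have hmem : Function.update c v a ∈ cols (S ∪ W) (insert v X) := by
          rw [mem_cols]
          constructor
          · intro u hu
            by_cases huv : u = v
            · subst huv; rw [Function.update_self]; exact ha
            · rw [Function.update_of_ne huv]
              exact hc1.1 u ((Finset.mem_insert.1 hu).resolve_left huv)
          · intro u hu
            rw [Finset.mem_insert, not_or] at hu
            rw [Function.update_of_ne hu.1]
            exact hc1.2 u hu.2
        have hback : Function.update (Function.update c v a) v 0 = c := by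
          rw [Function.update_idem]
          conv_rhs => rw [← Function.update_eq_self v c, hcv]
        simp only [Finset.coe_union, Set.mem_union, Finset.mem_coe]
        by_cases hgood : ∀ e ∈ E, e ∩ T ⊆ insert v X → ¬ NoUnique S (e ∩ T) (Function.update c v a)
        · left
          rw [mem_val]
          exact ⟨hmem, hgood⟩
        · right
          push Not at hgood
          obtain ⟨e, he, heX, hbad⟩ := hgood
          rw [Finset.mem_biUnion]
          refine ⟨e, ?_, ?_⟩
          · rw [hEv, Finset.mem_filter]
            refine ⟨he, ?_, heX⟩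
            by_contra hve
            have hsub : e ∩ T ⊆ X := by
              intro u hu
              rcases Finset.mem_insert.1 (heX hu) with h | h
              · exfalso; apply hve; rw [← h]; exact (Finset.mem_inter.1 hu).1
              · exact h
            apply hc2 e he hsub
            rw [noUnique_congr (c' := Function.update c v a)]
            · exact hbad
            · intro u hu
              have : u ≠ v := by
                intro h; apply hve; rw [← h]; exact (Finset.mem_inter.1 hu).1
              rw [Function.update_of_ne this]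
          · simp only [Bad, Finset.mem_filter]
            refine ⟨hmem, ?_, hbad⟩
            rw [hback, mem_val]
            exact ⟨(mem_cols _ _ _).2 hc1, hc2⟩
      · rintro ⟨c, a⟩ hca ⟨c', a'⟩ hca' hcc
        simp only [Finset.coe_product, Set.mem_prod, Finset.mem_coe] at hca hca'
        rw [mem_val] at hca hca'
        have hcv : c v = 0 := ((mem_cols _ _ _).1 hca.1.1).2 v hvX
        have hcv' : c' v = 0 := ((mem_cols _ _ _).1 hca'.1.1).2 v hvX
        simp only at hcc
        have ha : a = a' := by
          have := congrFun hcc v
          simpa using this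
        have hcceq : c = c' := by
          funext u
          by_cases huv : u = v
          · subst huv; rw [hcv, hcv']
          · have := congrFun hcc u
            rwa [Function.update_of_ne huv, Function.update_of_ne huv] at this
        rw [ha, hcceq]
    rw [Finset.card_product, Finset.card_union_of_disjoint hSW] at h1
    calc (S.card + W.card) * (val E T S W X).card
        = (val E T S W X).card * (S.card + W.card) := by ring
      _ ≤ (val E T S W (insert v X) ∪ Ev.biUnion Bad).card := h1
      _ ≤ (val E T S W (insert v X)).card + (Ev.biUnion Bad).card := Finset.card_union_le _ _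
      _ ≤ _ := Nat.add_le_add_left Finset.card_biUnion_le _
  -- bounding the bad extensions of an edge
  have hbad : ∀ e ∈ Ev, (Δ : ℝ) * (Bad e).card
      ≤ ((S.card + W.card : ℕ) - β) * (val E T S W X).card := by
    intro e he
    rw [hEv, Finset.mem_filter] at he
    obtain ⟨heE, hve, heX⟩ := he
    have hcard1 : (Bad e).card ≤ (val E T S W (X \ e)).card *
        ((cols (S ∪ W) (e ∩ T)).filter (fun c => NoUnique S (e ∩ T) c)).card := by
      rw [← Finset.card_product]
      apply Finset.card_le_card_of_injOn
        (fun c => ((fun u => if u ∈ X \ e then c u else 0), (fun u => if u ∈ e ∩ T then c u else 0)))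
      · intro c hc
        simp only [Bad, Finset.coe_filter, Set.mem_ofPred_eq] at hc
        obtain ⟨hc1, hc2, hc3⟩ := hc
        rw [mem_cols] at hc1
        rw [mem_val] at hc2
        simp only [Finset.coe_product, Set.mem_prod, Finset.mem_coe]
        constructor
        · rw [mem_val, mem_cols]
          refine ⟨⟨?_, ?_⟩, ?_⟩
          · intro u hu
            rw [if_pos hu]
            exact hc1.1 u (Finset.mem_insert_of_mem (Finset.mem_sdiff.1 hu).1)
          · intro u hu
            rw [if_neg hu]
          · intro e' he' he'X
            have h1 := hc2.2 e' he' (he'X.trans Finset.sdiff_subset)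
            rwa [noUnique_congr (c' := Function.update c v 0)]
            intro u hu
            have hu' := he'X hu
            rw [if_pos hu']
            have : u ≠ v := by
              intro h; rw [h] at hu'; exact hvX (Finset.mem_sdiff.1 hu').1
            rw [Function.update_of_ne this]
        · rw [Finset.mem_filter, mem_cols]
          refine ⟨⟨?_, ?_⟩, ?_⟩
          · intro u hu
            rw [if_pos hu]
            exact hc1.1 u (heX hu)
          · intro u hu
            rw [if_neg hu]
          · rwa [noUnique_congr (c' := c)]
            intro u hu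
            rw [if_pos hu]
      · intro c hc c' hc' hcc
        simp only [Bad, Finset.coe_filter, Set.mem_ofPred_eq] at hc hc'
        have h1 := (mem_cols _ _ _).1 hc.1
        have h2 := (mem_cols _ _ _).1 hc'.1
        simp only [Prod.mk.injEq] at hcc
        funext u
        by_cases hu1 : u ∈ insert v X
        · by_cases hu2 : u ∈ e
          · have hu3 : u ∈ e ∩ T := by
              rw [Finset.mem_inter]
              refine ⟨hu2, ?_⟩
              rcases Finset.mem_insert.1 hu1 with h | h
              · rw [h]; exact hvT
              · exact hXT h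
            have := congrFun hcc.2 u
            simpa only [if_pos hu3] using this
          · have hu3 : u ∈ X \ e := by
              rw [Finset.mem_sdiff]
              refine ⟨?_, hu2⟩
              rcases Finset.mem_insert.1 hu1 with h | h
              · exact absurd (h ▸ hve) hu2
              · exact h
            have := congrFun hcc.1 u
            simpa only [if_pos hu3] using this
        · rw [h1.2 u hu1, h2.2 u hu1]
    have hcard2 := card_noUnique_le W S (e ∩ T)
    have hXe : (X \ (X \ e)).card = (e ∩ T).card - 1 := by
      have : X \ (X \ e) = (e ∩ T).erase v := by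
        ext u
        simp only [Finset.mem_sdiff, Finset.mem_erase, Finset.mem_inter, not_and, not_not]
        constructor
        · rintro ⟨h1, h2⟩
          exact ⟨fun h => hvX (h ▸ h1), h2 h1, hXT h1⟩
        · rintro ⟨h1, h2, h3⟩
          have h4 := heX (Finset.mem_inter.2 ⟨h2, h3⟩)
          rcases Finset.mem_insert.1 h4 with h | h
          · exact absurd h h1
          · exact ⟨h, fun _ => h2⟩
      rw [this, Finset.card_erase_of_mem (Finset.mem_inter.2 ⟨hve, hvT⟩)]
    have hch := hchain _ (X \ e) Finset.sdiff_subset hXe
    obtain ⟨-, hn2⟩ := hnum e heE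
    have hb1 : ((Bad e).card : ℝ) ≤ (val E T S W (X \ e)).card *
        noSing S.card W.card (e ∩ T).card := by
      have := le_trans hcard1 (Nat.mul_le_mul_left _ hcard2)
      exact_mod_cast this
    have hΔ' : (0 : ℝ) < Δ := by exact_mod_cast hΔ
    have hpow : 0 < β ^ ((e ∩ T).card - 1) := by positivity
    have hKβ : 0 ≤ ((S.card + W.card : ℕ) : ℝ) - β := by
      by_contra hcon
      push Not at hcon
      have h1 : (Δ : ℝ) * noSing S.card W.card (e ∩ T).card ≥ 0 := by positivity
      have h2 : (((S.card + W.card : ℕ) : ℝ) - β) * β ^ ((e ∩ T).card - 1) < 0 :=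
        mul_neg_of_neg_of_pos hcon hpow
      linarith
    calc (Δ : ℝ) * (Bad e).card
        ≤ Δ * ((val E T S W (X \ e)).card * noSing S.card W.card (e ∩ T).card) :=
          mul_le_mul_of_nonneg_left hb1 hΔ'.le
      _ = (Δ * noSing S.card W.card (e ∩ T).card) * (val E T S W (X \ e)).card := by ring
      _ ≤ ((((S.card + W.card : ℕ) : ℝ) - β) * β ^ ((e ∩ T).card - 1)) *
            (val E T S W (X \ e)).card := mul_le_mul_of_nonneg_right hn2 (by positivity)
      _ = (((S.card + W.card : ℕ) : ℝ) - β) * (β ^ ((e ∩ T).card - 1) *
            (val E T S W (X \ e)).card) := by ring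
      _ ≤ (((S.card + W.card : ℕ) : ℝ) - β) * (val E T S W X).card :=
          mul_le_mul_of_nonneg_left hch hKβ
  -- conclusion
  by_cases hEvne : Ev.Nonempty
  · have hEvcard : Ev.card ≤ Δ := by
      refine le_trans (Finset.card_le_card ?_) (hdeg v)
      intro e he
      rw [hEv, Finset.mem_filter] at he
      exact Finset.mem_filter.2 ⟨he.1, he.2.1⟩
    have hΔ' : (0 : ℝ) < Δ := by exact_mod_cast hΔ
    have hKβ : 0 ≤ (((S.card + W.card : ℕ) : ℝ) - β) * (val E T S W X).card := by
      obtain ⟨e, he⟩ := hEvne
      refine le_trans ?_ (hbad e he)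
      positivity
    have hsum : (∑ e ∈ Ev, ((Bad e).card : ℝ)) ≤ (((S.card + W.card : ℕ) : ℝ) - β) *
        (val E T S W X).card := by
      have h1 : (Δ : ℝ) * ∑ e ∈ Ev, ((Bad e).card : ℝ)
          ≤ Δ * ((((S.card + W.card : ℕ) : ℝ) - β) * (val E T S W X).card) := by
        rw [Finset.mul_sum]
        calc ∑ e ∈ Ev, (Δ : ℝ) * (Bad e).card
            ≤ ∑ e ∈ Ev, (((S.card + W.card : ℕ) : ℝ) - β) * (val E T S W X).card :=
              Finset.sum_le_sum hbad
          _ = Ev.card * ((((S.card + W.card : ℕ) : ℝ) - β) * (val E T S W X).card) := by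
              rw [Finset.sum_const, nsmul_eq_mul]
          _ ≤ _ := mul_le_mul_of_nonneg_right (by exact_mod_cast hEvcard) hKβ
      exact le_of_mul_le_mul_left h1 hΔ'
    have hext' : (((S.card + W.card : ℕ) : ℝ)) * (val E T S W X).card
        ≤ (val E T S W (insert v X)).card + ∑ e ∈ Ev, ((Bad e).card : ℝ) := by
      exact_mod_cast hext
    nlinarith
  · rw [Finset.not_nonempty_iff_eq_empty] at hEvne
    rw [hEvne, Finset.sum_empty, add_zero] at hext
    have hext' : (((S.card + W.card : ℕ) : ℝ)) * (val E T S W X).card
        ≤ (val E T S W (insert v X)).card := by exact_mod_cast hext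
    have : β * (val E T S W X).card ≤ (((S.card + W.card : ℕ) : ℝ)) * (val E T S W X).card :=
      mul_le_mul_of_nonneg_right hβK (by positivity)
    linarith

/-- Existence of a colouring of `T` in which every trace has a unique special colour. -/
theorem exists_unique_colouring {V : Type*} [Fintype V] [DecidableEq V] (E : Finset (Finset V))
    (T : Finset V) (S W : Finset ℕ) (hSW : Disjoint S W) (Δ : ℕ) (hΔ : 0 < Δ)
    (hdeg : ∀ v, (E.filter (fun e => v ∈ e)).card ≤ Δ)
    (β : ℝ) (hβ : 0 < β) (hβK : β ≤ ((S.card + W.card : ℕ) : ℝ))
    (hnum : ∀ e ∈ E, 1 ≤ (e ∩ T).card ∧ (Δ : ℝ) * noSing S.card W.card (e ∩ T).card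
      ≤ ((S.card + W.card : ℕ) - β) * β ^ ((e ∩ T).card - 1)) :
    ∃ c : V → ℕ, ∀ e ∈ E, ¬ NoUnique S (e ∩ T) c := by
  have hstep := val_step E T S W hSW Δ hΔ hdeg β hβ hβK hnum
  have hpos : ∀ (n : ℕ) (X : Finset V), X ⊆ T → X.card = n → (val E T S W X).Nonempty := by
    intro n
    induction n with
    | zero =>
      intro X _ hX
      have hX0 : X = ∅ := Finset.card_eq_zero.1 hX
      refine ⟨fun _ => 0, ?_⟩
      rw [mem_val, mem_cols]
      refine ⟨⟨?_, ?_⟩, ?_⟩
      · intro v hv; rw [hX0] at hv; exact absurd hv (Finset.notMem_empty v)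
      · intro v _; rfl
      · intro e he heX
        exfalso
        have h1 := (hnum e he).1
        have h2 := Finset.card_le_card heX
        omega
    | succ n ihn =>
      intro X hXT hX
      have hne : X.Nonempty := by rw [← Finset.card_pos]; omega
      obtain ⟨v, hv⟩ := hne
      have h1 := ihn (X.erase v) ((Finset.erase_subset _ _).trans hXT)
        (by rw [Finset.card_erase_of_mem hv]; omega)
      have h2 := hstep _ (X.erase v) ((Finset.erase_subset _ _).trans hXT) rfl v (hXT hv)
        (Finset.notMem_erase v X)
      rw [Finset.insert_erase hv] at h2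
      have h3 : (0 : ℝ) < (val E T S W (X.erase v)).card := by exact_mod_cast Finset.card_pos.2 h1
      have h4 : (0 : ℝ) < (val E T S W X).card := lt_of_lt_of_le (mul_pos hβ h3) h2
      rw [← Finset.card_pos]
      exact_mod_cast h4
  obtain ⟨c, hc⟩ := hpos T.card T (Finset.Subset.refl T) rfl
  rw [mem_val] at hc
  exact ⟨c, fun e he => hc.2 e he Finset.inter_subset_right⟩

end Pool.Agent.H90
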